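import Pool.Agent.Helper60.BFT.Goals
import Pool.Agent.Helper60.BFT.AvBasic

/-!
# The martingale bound for averages over residue classes
-/

set_option autoImplicit false

open Finset

namespace Pool.Agent.Helper61.BFT

open Pool.Agent.Helper60.BFT

lemma Av_update (L : List ℕ) (q u : ℕ) (hq : q ∉ L) (f : (ℕ → ℕ) → ℝ) (a : ℕ → ℕ) :
    Av L f (Function.update a q u) = Av L (fun b => f (Function.update b q u)) a := by
  induction L generalizing a with
  | nil => rfl
  | cons p L ih =>
    rw [List.mem_cons, not_or] at hq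
    rw [Av_cons, Av_cons]
    congr 1
    apply Finset.sum_congr rfl
    intro c _
    rw [Function.update_comm hq.1, ih hq.2]

lemma var_aux (L : List ℕ) (hL : L.Nodup) (hp : ∀ q ∈ L, 0 < q) (f : (ℕ → ℕ) → ℝ) (c : ℕ → ℝ)
    (hc : ∀ q ∈ L, ∀ a : ℕ → ℕ, ∀ u < q, ∀ v < q,
      |f (Function.update a q u) - f (Function.update a q v)| ≤ c q) (a : ℕ → ℕ) :
    Av L (fun b => (f b - Av L f a) ^ 2) a ≤ (L.map (fun q => c q ^ 2)).sum := by
  induction L generalizing a with
  | nil => simp [Av_nil]
  | cons q L ih =>
    rw [List.nodup_cons] at hL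
    have hqpos : 0 < q := hp q (by simp)
    have hp' : ∀ q ∈ L, 0 < q := fun p h => hp p (List.mem_cons_of_mem _ h)
    have hc' : ∀ q ∈ L, ∀ a : ℕ → ℕ, ∀ u < q, ∀ v < q,
      |f (Function.update a q u) - f (Function.update a q v)| ≤ c q :=
      fun p h => hc p (List.mem_cons_of_mem _ h)
    have hq0 : (0 : ℝ) < q := by exact_mod_cast hqpos
    set m : ℝ := Av (q :: L) f a with hm
    have hm' : m = (∑ v ∈ range q, Av L f (Function.update a q v)) / (q : ℝ) := by
      rw [hm, Av_cons]
    have hdiff : ∀ u < q, ∀ v < q,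
        |Av L f (Function.update a q u) - Av L f (Function.update a q v)| ≤ c q := by
      intro u hu v hv
      rw [Av_update L q u hL.1, Av_update L q v hL.1, ← Av_sub]
      exact abs_Av_le_const L hp' _ _ _ (fun b => hc q (by simp) b u hu v hv)
    have hcq : ∀ u < q, |Av L f (Function.update a q u) - m| ≤ c q := by
      intro u hu
      have h1 : Av L f (Function.update a q u) - m
          = (∑ v ∈ range q, (Av L f (Function.update a q u) - Av L f (Function.update a q v)))
            / (q : ℝ) := by
        rw [Finset.sum_sub_distrib, Finset.sum_const, Finset.card_range, nsmul_eq_mul, hm']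
        field_simp
      rw [h1, abs_div, Nat.abs_cast, div_le_iff₀ hq0]
      refine (Finset.abs_sum_le_sum_abs _ _).trans ?_
      refine (Finset.sum_le_sum (fun v hv => hdiff u hu v (mem_range.1 hv))).trans ?_
      rw [Finset.sum_const, Finset.card_range, nsmul_eq_mul, mul_comm]
    have hstep : ∀ u < q, Av L (fun b => (f b - m) ^ 2) (Function.update a q u)
        ≤ (L.map (fun q => c q ^ 2)).sum + c q ^ 2 := by
      intro u hu
      set F : ℝ := Av L f (Function.update a q u) with hF
      have h1 : Av L (fun b => (f b - m) ^ 2) (Function.update a q u)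
          = Av L (fun b => (f b - F) ^ 2) (Function.update a q u) + (F - m) ^ 2 := by
        have h2 : Av L (fun b => (f b - m) ^ 2) (Function.update a q u)
            = Av L (fun b => ((f b - F) ^ 2 + 2 * (F - m) * (f b - F)) + (F - m) ^ 2)
              (Function.update a q u) :=
          Av_ext L _ _ _ (fun b => by ring)
        have h3 : Av L (fun b => f b - F) (Function.update a q u) = 0 := by
          rw [Av_sub L f (fun _ => F), Av_const L hp', ← hF, sub_self]
        rw [h2, Av_add L (fun b => (f b - F) ^ 2 + 2 * (F - m) * (f b - F)) (fun _ => (F - m) ^ 2),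
          Av_add L (fun b => (f b - F) ^ 2) (fun b => 2 * (F - m) * (f b - F)), Av_mul_left, h3,
          Av_const L hp']
        ring
      rw [h1]
      have h4 := ih hL.2 hp' hc' (Function.update a q u)
      have h5 : (F - m) ^ 2 ≤ c q ^ 2 := by
        have := hcq u hu
        rw [← hF] at this
        exact sq_le_sq.2 (this.trans (le_abs_self _))
      exact add_le_add h4 h5
    rw [Av_cons, List.map_cons, List.sum_cons, div_le_iff₀ hq0]
    refine (Finset.sum_le_sum (fun u hu => hstep u (mem_range.1 hu))).trans ?_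
    rw [Finset.sum_const, Finset.card_range, nsmul_eq_mul]
    apply le_of_eq
    ring

theorem varg : VARG := by
  intro L hL hp f c hc a
  have h1 : Av L (fun b => |f b - Av L f b|) a = Av L (fun b => |f b - Av L f a|) a := by
    apply Av_congr
    intro b hb
    rw [Av_off L f b a hb]
  rw [h1]
  apply Real.le_sqrt_of_sq_le
  refine le_trans ?_ (var_aux L hL hp f c hc a)
  -- Jensen
  set g : (ℕ → ℕ) → ℝ := fun b => |f b - Av L f a| with hg
  have h2 : Av L (fun b => (f b - Av L f a) ^ 2) a = Av L (fun b => g b ^ 2) a :=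
    Av_ext L _ _ _ (fun b => by simp [hg, sq_abs])
  rw [h2]
  set m : ℝ := Av L g a with hm
  have h3 : 0 ≤ Av L (fun b => (g b - m) ^ 2) a := Av_nonneg L _ _ (fun b => sq_nonneg _)
  have h4 : Av L (fun b => (g b - m) ^ 2) a = Av L (fun b => g b ^ 2) a - m ^ 2 := by
    have h5 : Av L (fun b => (g b - m) ^ 2) a
        = Av L (fun b => (g b ^ 2 - (2 * m) * g b) + m ^ 2) a :=
      Av_ext L _ _ _ (fun b => by ring)
    rw [h5, Av_add L (fun b => g b ^ 2 - (2 * m) * g b) (fun _ => m ^ 2),
      Av_sub L (fun b => g b ^ 2) (fun b => (2 * m) * g b), Av_mul_left, Av_const L hp, ← hm]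
    ring
  linarith

end Pool.Agent.Helper61.BFT
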