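import Pool.Agent.Helper60.BFT.Goals
import Pool.Agent.Helper60.BFT.AvBasic

/-!
# Expected loss by freezing the cutoff
-/

set_option autoImplicit false

open Finset MeasureTheory ProbabilityTheory
open Pool.Agent.Helper90.Twin (Ps)

namespace Pool.Agent.Helper61.BFT

open Pool.Agent.Helper60.BFT

lemma root_block (K r n : ℕ) (hK : 1 ≤ K) (h1 : r ^ K ≤ n) (h2 : n < (r + 1) ^ K) :
    root K n = r := by
  unfold root
  rw [Nat.findGreatest_eq_iff]
  refine ⟨?_, fun _ => h1, ?_⟩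
  · exact (Nat.le_self_pow (by omega) r).trans h1
  · intro m hm _ h
    have : (r + 1) ^ K ≤ m ^ K := Nat.pow_le_pow_left hm K
    omega

lemma block_lt (K r i : ℕ) (hi : i < len K r) : r ^ K + i < (r + 1) ^ K := by
  unfold len at hi
  omega

open Classical in
/-- indicator of `n ≡ a p (mod p)` -/
noncomputable def ind (n p : ℕ) (a : ℕ → ℕ) : ℝ := if n ≡ a p [MOD p] then 1 else 0

lemma ind_nonneg (n p : ℕ) (a : ℕ → ℕ) : 0 ≤ ind n p a := by
  unfold ind
  split_ifs <;> norm_num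

lemma diff_le (K : ℕ) (hK : 1 ≤ K) (Z : ℕ → ℕ) (β : ℕ → ℕ → (ℕ → ℕ) → ℕ) (hZ : Monotone Z)
    (r : ℕ) (hr : 5 ≤ r) (hrZ : r ≤ Z (r ^ K)) (a : ℕ → ℕ) (i : ℕ) (hi : i < len K r) :
    |YF K Z β r a (r ^ K + i) - YP K Z β a (r ^ K + i)|
      ≤ ∑ p ∈ Ps (Z ((r + 1) ^ K)) \ Ps (Z (r ^ K)),
          (ind (r ^ K + i) p a + ind (r ^ K + i + 2) p a) := by
  classical
  set n : ℕ := r ^ K + i with hn
  have hn1 : r ^ K ≤ n := by omega
  have hn2 : n < (r + 1) ^ K := block_lt K r i hi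
  have hroot : root K n = r := root_block K r n hK hn1 hn2
  have hZ1 : Z (r ^ K) ≤ Z n := hZ hn1
  have hZ2 : Z n ≤ Z ((r + 1) ^ K) := hZ hn2.le
  have hcls : ∀ p, cls K β a n p = if p ≤ r then β r p a else a p := by
    intro p
    unfold cls
    rw [hroot]
  have hnn : 0 ≤ ∑ p ∈ Ps (Z ((r + 1) ^ K)) \ Ps (Z (r ^ K)), (ind n p a + ind (n + 2) p a) :=
    Finset.sum_nonneg (fun p _ => add_nonneg (ind_nonneg _ _ _) (ind_nonneg _ _ _))
  by_cases hP : Pair K Z β a n
  · have h1 : YP K Z β a n = 1 := by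
      unfold YP
      rw [if_pos hP]
    have h2 : YF K Z β r a n = 1 := by
      unfold YF
      rw [if_pos]
      refine ⟨hP.1, ?_⟩
      intro p hp h3 hpZ
      have := hP.2 p hp h3 (hpZ.trans hZ1)
      rwa [hcls] at this
    rw [h1, h2, sub_self, abs_zero]
    exact hnn
  · have h1 : YP K Z β a n = 0 := by
      unfold YP
      rw [if_neg hP]
    by_cases hF : n % 2 = 1 ∧ ∀ p : ℕ, p.Prime → 3 ≤ p → p ≤ Z (r ^ K) →
      ¬ n ≡ (if p ≤ r then β r p a else a p) [MOD p] ∧
      ¬ n + 2 ≡ (if p ≤ r then β r p a else a p) [MOD p]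
    · have h2 : YF K Z β r a n = 1 := by
        unfold YF
        rw [if_pos hF]
      rw [h1, h2, sub_zero, abs_one]
      unfold Pair at hP
      push Not at hP
      obtain ⟨p, hp, h3, hpZ, h4⟩ := hP hF.1
      have hpZ' : Z (r ^ K) < p := by
        by_contra hcon
        have h5 := hF.2 p hp h3 (not_lt.1 hcon)
        rw [hcls] at h4
        exact h5.2 (h4 h5.1)
      have hpr : ¬ p ≤ r := by omega
      rw [hcls, if_neg hpr] at h4
      have hmem : p ∈ Ps (Z ((r + 1) ^ K)) \ Ps (Z (r ^ K)) := by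
        rw [Finset.mem_sdiff, Helper90.Twin.mem_Ps, Helper90.Twin.mem_Ps]
        refine ⟨⟨by omega, hpZ.trans hZ2, hp⟩, ?_⟩
        rintro ⟨_, h, _⟩
        omega
      have h6 : (1 : ℝ) ≤ ind n p a + ind (n + 2) p a := by
        by_cases h7 : n ≡ a p [MOD p]
        · have : ind n p a = 1 := by
            unfold ind
            rw [if_pos h7]
          linarith [ind_nonneg (n + 2) p a]
        · have : ind (n + 2) p a = 1 := by
            unfold ind
            rw [if_pos (h4 h7)]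
          linarith [ind_nonneg n p a]
      refine h6.trans ?_
      exact Finset.single_le_sum (f := fun p => ind n p a + ind (n + 2) p a)
        (fun p _ => add_nonneg (ind_nonneg _ _ _) (ind_nonneg _ _ _)) hmem
    · have h2 : YF K Z β r a n = 0 := by
        unfold YF
        rw [if_neg hF]
      rw [h1, h2, sub_self, abs_zero]
      exact hnn

section Prob

variable {Ω : Type} [MeasurableSpace Ω] {μ : Measure Ω} [IsProbabilityMeasure μ] {ω : ℕ → Ω → ℕ}

lemma ge_null (hω : Uni μ ω) (p : ℕ) (hp : p.Prime) : μ {w | p ≤ ω p w} = 0 := by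
  have h1 : {w | p ≤ ω p w} = {w | ω p w < p}ᶜ := by
    ext w
    simp
  have hm : ∀ s : Set ℕ, MeasurableSet (ω p ⁻¹' s) := fun s => hω.meas p (MeasurableSet.of_discrete)
  have hmeas : MeasurableSet {w | ω p w < p} := hm (Set.Iio p)
  rw [h1, prob_compl_eq_zero_iff hmeas]
  have h2 : {w | ω p w < p} = ⋃ c ∈ range p, {w | ω p w = c} := by
    ext w
    simp
  rw [h2, measure_biUnion_finset]
  · rw [Finset.sum_congr rfl (fun c hc => hω.unif p hp c (mem_range.1 hc)), Finset.sum_const,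
      Finset.card_range, nsmul_eq_mul]
    exact ENNReal.mul_inv_cancel (by exact_mod_cast hp.ne_zero) (ENNReal.natCast_ne_top p)
  · intro c _ d _ hcd
    rw [Function.onFun, Set.disjoint_left]
    intro w h3 h4
    exact hcd (h3.symm.trans h4)
  · intro c _
    exact hm {c}

lemma prob_le (hω : Uni μ ω) (p : ℕ) (hp : p.Prime) (n : ℕ) :
    μ {w | n ≡ ω p w [MOD p]} ≤ (p : ENNReal)⁻¹ := by
  have h1 : {w | n ≡ ω p w [MOD p]} ⊆ {w | ω p w = n % p} ∪ {w | p ≤ ω p w} := by
    intro w hw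
    by_cases h : p ≤ ω p w
    · exact Or.inr h
    · left
      have h2 : n % p = ω p w % p := hw
      rw [Nat.mod_eq_of_lt (not_le.1 h)] at h2
      exact h2.symm
  refine (measure_mono h1).trans ((measure_union_le _ _).trans ?_)
  rw [ge_null hω p hp, add_zero, hω.unif p hp _ (Nat.mod_lt _ hp.pos)]

omit [IsProbabilityMeasure μ] in
lemma meas_ind (hω : Uni μ ω) (p n : ℕ) : MeasurableSet {w | n ≡ ω p w [MOD p]} :=
  hω.meas p (MeasurableSet.of_discrete (s := {m : ℕ | n ≡ m [MOD p]}))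

omit [MeasurableSpace Ω] in
lemma ind_eq (p n : ℕ) : (fun w => ind n p (fun q => ω q w))
    = Set.indicator {w | n ≡ ω p w [MOD p]} (fun _ => (1 : ℝ)) := by
  classical
  funext w
  unfold ind
  rw [Set.indicator_apply]
  rfl

lemma int_ind (hω : Uni μ ω) (p n : ℕ) : Integrable (fun w => ind n p (fun q => ω q w)) μ := by
  rw [ind_eq]
  exact (integrable_const (1 : ℝ)).indicator (meas_ind hω p n)

lemma integral_ind_le (hω : Uni μ ω) (p : ℕ) (hp : p.Prime) (n : ℕ) :
    ∫ w, ind n p (fun q => ω q w) ∂μ ≤ 1 / p := by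
  have h1 : ∫ w, ind n p (fun q => ω q w) ∂μ = μ.real {w | n ≡ ω p w [MOD p]} := by
    have h2 := congrArg (fun f : Ω → ℝ => ∫ w, f w ∂μ) (ind_eq (ω := ω) p n)
    rw [h2, integral_indicator (meas_ind hω p n), setIntegral_const, smul_eq_mul, mul_one]
  rw [h1, Measure.real]
  have h3 := ENNReal.toReal_mono (by simp [hp.ne_zero]) (prob_le hω p hp n)
  refine h3.trans (le_of_eq ?_)
  rw [ENNReal.toReal_inv, ENNReal.toReal_natCast, one_div]

end Prob

theorem remg : REMG := by
  intro Ω _ μ _ ω hω K hK Z β hZ _ r hr hrZ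
  set D := Ps (Z ((r + 1) ^ K)) \ Ps (Z (r ^ K)) with hD
  have hsub : Ps (Z (r ^ K)) ⊆ Ps (Z ((r + 1) ^ K)) := by
    intro p hp
    rw [Helper90.Twin.mem_Ps] at hp ⊢
    exact ⟨hp.1, hp.2.1.trans (hZ (Nat.pow_le_pow_left (Nat.le_succ r) K)), hp.2.2⟩
  have hDp : ∀ p ∈ D, p.Prime := by
    intro p hp
    rw [hD, Finset.mem_sdiff, Helper90.Twin.mem_Ps] at hp
    exact hp.1.2.2
  have hint : ∀ i ∈ range (len K r), ∀ p ∈ D, Integrable (fun w =>
      ind (r ^ K + i) p (fun q => ω q w) + ind (r ^ K + i + 2) p (fun q => ω q w)) μ :=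
    fun i _ p _ => (int_ind hω p _).add (int_ind hω p _)
  have hint' : ∀ i ∈ range (len K r), Integrable (fun w => ∑ p ∈ D,
      (ind (r ^ K + i) p (fun q => ω q w) + ind (r ^ K + i + 2) p (fun q => ω q w))) μ :=
    fun i hi => integrable_finsetSum _ (fun p hp => hint i hi p hp)
  have h1 : ∫ w, Rem K Z β r (fun p => ω p w) ∂μ
      ≤ ∫ w, ∑ i ∈ range (len K r), ∑ p ∈ D,
        (ind (r ^ K + i) p (fun q => ω q w) + ind (r ^ K + i + 2) p (fun q => ω q w)) ∂μ := by
    apply integral_mono_of_nonneg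
    · exact Filter.Eventually.of_forall (fun w => Finset.sum_nonneg (fun i _ => abs_nonneg _))
    · exact integrable_finsetSum _ hint'
    · refine Filter.Eventually.of_forall (fun w => ?_)
      exact Finset.sum_le_sum (fun i hi =>
        diff_le K hK Z β hZ r hr hrZ (fun p => ω p w) i (mem_range.1 hi))
  refine h1.trans ?_
  rw [integral_finsetSum _ hint']
  have h2 : ∀ i ∈ range (len K r), ∫ w, ∑ p ∈ D,
        (ind (r ^ K + i) p (fun q => ω q w) + ind (r ^ K + i + 2) p (fun q => ω q w)) ∂μ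
        ≤ ∑ p ∈ D, 2 / (p : ℝ) := by
    intro i hi
    rw [integral_finsetSum _ (hint i hi)]
    apply Finset.sum_le_sum
    intro p hp
    rw [integral_add (int_ind hω p _) (int_ind hω p _)]
    have h3 := integral_ind_le hω p (hDp p hp) (r ^ K + i)
    have h4 := integral_ind_le hω p (hDp p hp) (r ^ K + i + 2)
    have h5 : (2 : ℝ) / p = 1 / p + 1 / p := by ring
    rw [h5]
    exact add_le_add h3 h4
  refine (Finset.sum_le_sum h2).trans ?_
  rw [Finset.sum_const, Finset.card_range, nsmul_eq_mul]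
  have h6 := Finset.sum_sdiff (f := fun p : ℕ => 2 / (p : ℝ)) hsub
  rw [← hD] at h6
  apply le_of_eq
  rw [← h6]
  ring

end Pool.Agent.Helper61.BFT
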